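import Pool.Agent.Helper35.MS.StK

/-!
# MS module TRL: translations of `ℝ^N` change nothing
-/

set_option autoImplicit false

namespace Helper9.MS

open Helper35.MS Helper35.PI Helper35.PI2 Helper32.CL
open scoped ContDiff Manifold Topology ENNReal BigOperators
open MeasureTheory Set Filter

section Local

variable {n N : ℕ} (f : EE n → EE N) (x : EE N)

private theorem fd (y : EE n) : fderiv ℝ (fun y => f y - x) y = fderiv ℝ f y :=
  fderiv_sub_const x

private theorem dv1_eq : dv1 (fun y => f y - x) = dv1 f := by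
  funext y i
  unfold dv1
  rw [fd]

private theorem dv2_eq : dv2 (fun y => f y - x) = dv2 f := by
  funext y i j
  unfold dv2
  simp only [fd]

private theorem gram_eq : gram (fun y => f y - x) = gram f := by
  funext y
  unfold gram
  rw [dv1_eq]

private theorem nrm_eq : nrm (fun y => f y - x) = nrm f := by
  funext y v
  unfold nrm
  rw [dv1_eq, gram_eq]

private theorem sff_eq : sff (fun y => f y - x) = sff f := by
  funext y i j
  unfold sff
  rw [nrm_eq, dv2_eq]

private theorem mcv_eq : mcv (fun y => f y - x) = mcv f := by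
  funext y
  unfold mcv
  rw [gram_eq, sff_eq]

private theorem nsq_eq : nsq (fun y => f y - x) = nsq f := by
  funext y
  unfold nsq
  rw [gram_eq, sff_eq]

private theorem zsq_eq : zsq (fun y => f y - x) = zsq f := by
  funext y
  unfold zsq
  rw [gram_eq, sff_eq, mcv_eq]

private theorem sgm_eq : sgm (fun y => f y - x) = sgm f := by
  funext y
  unfold sgm
  rw [gram_eq]

private theorem scv_eq : scv (fun y => f y - x) = scv f := by
  funext y k
  unfold scv
  rw [gram_eq, sff_eq, mcv_eq]

private theorem vcv_eq (μ : ℝ) : vcv μ (fun y => f y - x) = vcv μ f := by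
  funext y k
  unfold vcv
  rw [nsq_eq, mcv_eq, scv_eq]

private theorem vfd_eq (μ : ℝ) : vfd μ (fun y => f y - x) = vfd μ f := by
  funext y
  unfold vfd
  rw [gram_eq, vcv_eq, dv1_eq]

end Local

section Flow

variable {N : ℕ} {M : Type} [TopologicalSpace M] [ChartedSpace (EE 2) M]
  (F : M → ℝ → EE N) (x : EE N)

private theorem loc_eq (q : M) (t : ℝ) :
    loc (n := 2) (fun q t => F q t - x) q t = fun y => loc (n := 2) F q t y - x := rfl

private theorem HH_eq : HH (n := 2) (fun q t => F q t - x) = HH (n := 2) F := by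
  funext q t
  unfold HH
  rw [loc_eq, mcv_eq]

private theorem AA_eq : AA (n := 2) (fun q t => F q t - x) = AA (n := 2) F := by
  funext q t
  unfold AA
  rw [loc_eq, nsq_eq]

private theorem ZF_eq : ZF (n := 2) (fun q t => F q t - x) = ZF (n := 2) F := by
  funext q t
  unfold ZF
  rw [loc_eq, zsq_eq]

private theorem thF_eq : thF 2 (fun q t => F q t - x) = thF 2 F := by
  funext q t
  unfold thF
  rw [HH_eq, AA_eq]

private theorem YF_eq : YF (fun q t => F q t - x) = YF F := by
  funext q t
  unfold YF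
  rw [HH_eq]

private theorem gdM_eq : gdM 2 (fun q t => F q t - x) = gdM 2 F := by
  funext t h q
  unfold gdM
  rw [loc_eq, gram_eq, dv1_eq]

private theorem dvg_eq : dvg (n := 2) (fun q t => F q t - x) = dvg (n := 2) F := by
  funext X q t
  unfold dvg
  rw [loc_eq, gram_eq, dv1_eq]

private theorem VF_eq (μ : ℝ) : VF 2 μ (fun q t => F q t - x) = VF 2 μ F := by
  funext t q
  unfold VF
  rw [loc_eq, vfd_eq]

private theorem g3F_eq : g3F (fun q t => F q t - x) = g3F F := by
  funext q t
  unfold g3F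
  rw [HH_eq, thF_eq, dvg_eq, VF_eq]

private theorem htF_eq : htF (fun q t => F q t - x) = htF F := by
  funext u q t
  unfold htF lapF
  rw [dvg_eq, gdM_eq]

private theorem Evo_of {J : Set ℝ} {u : M → ℝ → ℝ} (h : Evo J F u) :
    Evo J (fun q t => F q t - x) u where
  c0 := h.c0
  c1 := h.c1
  hd := h.hd
  sm := h.sm
  gr := by
    rw [gdM_eq]
    exact h.gr
  og := by
    rw [gdM_eq, HH_eq]
    exact h.og

private theorem Pin_of {J : Set ℝ} {δ : ℝ} (h : Pin J F δ) :
    Pin J (fun q t => F q t - x) δ where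
  δ0 := h.δ0
  y4 := by rw [YF_eq]; exact h.y4
  th0 := by rw [thF_eq]; exact h.th0
  th1 := by rw [thF_eq, YF_eq]; exact h.th1
  g0 := by rw [g3F_eq]; exact h.g0
  g1 := by rw [g3F_eq, YF_eq, thF_eq]; exact h.g1
  gr := by rw [gdM_eq, YF_eq, g3F_eq]; exact h.gr
  hY := by rw [htF_eq, YF_eq, thF_eq]; exact h.hY
  hth := by rw [htF_eq, YF_eq, thF_eq]; exact h.hth
  hmx := by rw [htF_eq, YF_eq, thF_eq]; exact h.hmx
  eY := by rw [YF_eq]; exact Evo_of F x h.eY
  eth := by rw [thF_eq]; exact Evo_of F x h.eth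
  emx := by rw [YF_eq, thF_eq]; exact Evo_of F x h.emx
  esm := by rw [YF_eq, thF_eq]; exact Evo_of F x h.esm

private theorem muM_eq [MeasurableSpace M] (c : ℕ → M) (χ : ℕ → M → ℝ) :
    muM 2 (fun q t => F q t - x) c χ = muM 2 F c χ := by
  funext t
  unfold muM
  simp only [loc_eq, sgm_eq]

end Flow

/-- TRL. -/
theorem hTRL : StTRL := by
  intro N M _ _ _ _ F G x hG
  subst hG
  refine ⟨HH_eq F x, AA_eq F x, ZF_eq F x, thF_eq F x, YF_eq F x, muM_eq F x, ?_⟩
  intro c χ T δ h
  refine ⟨h.T0, ⟨⟨⟨h.su.mcf.op, ?_, ?_⟩, ?_⟩, h.su.pu⟩, Pin_of F x h.pi, ?_⟩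
  · have h1 := h.su.mcf.smooth
    exact h1.sub contMDiffOn_const
  · intro p t ht
    have h1 := h.su.mcf.imm p t ht
    rw [loc_eq, dv1_eq]
    exact h1
  · intro p t ht
    rw [HH_eq]
    exact (h.su.mcf.flow p t ht).sub_const x
  · intro t ht
    unfold wI eI
    rw [YF_eq, thF_eq, muM_eq]
    exact h.gb t ht

end Helper9.MS
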